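import Pool.Agent.TH679.PL.Asym
import Pool.Agent.TH679.CF.Laws

/-!
The choice of the parameters
-/

set_option autoImplicit false

namespace Pool.Agent.TH679.NC

open Pool.Agent.TH679.PL (kap kap_ge clog_le_logb)
open Filter

theorem fits {ε : ℝ} (hε : 0 < ε) (hε1 : ε ≤ 1) {d n K L D t a κ : ℕ} {ν : ℝ}
    (hν : ν = Real.logb 2 n) (hn : 1 ≤ n) (hL : 1 ≤ L) (hD1 : 1 ≤ D) (hDν : (D : ℝ) ≤ ν)
    (g1 : ν ^ 2 + 2 ≤ (2 : ℝ) ^ (ε / 4 * ν)) (g3 : 1000 / ε ^ 2 ≤ ν)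
    (hs : (1 - ε / 2) * ν ≤ ((a * d : ℕ) : ℝ)) (ht : ε / 16 * D ≤ t) (hκ : (t : ℝ) / 4 ≤ κ)
    (hK : (K : ℝ) ≤ (n : ℝ) ^ (1 - ε))
    (hl : (2 ^ (a * d)) ^ κ ≤ 2 * L * ((Nat.clog 2 L + 1) * K) ^ κ) :
    (n : ℝ) ^ (ε ^ 2 / 512 * D) ≤ L := by
  by_contra hlt
  push Not at hlt
  have hn0 : (0 : ℝ) < n := by exact_mod_cast hn
  have hn2 : (n : ℝ) = 2 ^ ν := by
    rw [hν]
    exact (Real.rpow_logb (by norm_num) (by norm_num) hn0).symm
  have hD0 : (1 : ℝ) ≤ D := by exact_mod_cast hD1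
  have hν0 : 0 < ν := by linarith
  have hL0 : (0 : ℝ) < L := by exact_mod_cast hL
  have hLlog : Real.logb 2 L ≤ ε ^ 2 / 512 * D * ν := by
    rw [Real.logb_le_iff_le_rpow (by norm_num) hL0]
    refine hlt.le.trans (le_of_eq ?_)
    rw [hn2, ← Real.rpow_mul (by norm_num)]
    congr 1
    ring
  have hε2 : ε ^ 2 ≤ 1 := by nlinarith
  have hclog : (Nat.clog 2 L : ℝ) + 1 ≤ ν ^ 2 + 2 := by
    have e1 := clog_le_logb hL
    have e2 : (D : ℝ) * ν ≤ ν * ν := mul_le_mul_of_nonneg_right hDν hν0.le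
    have e3 : ε ^ 2 / 512 * (D * ν) ≤ 1 * (ν * ν) :=
      mul_le_mul (by linarith) e2 (by positivity) (by norm_num)
    nlinarith
  have hx : ((((Nat.clog 2 L + 1) * K : ℕ)) : ℝ) ≤ 2 ^ ((1 - 3 * ε / 4) * ν) := by
    push_cast
    have e0 : (K : ℝ) ≤ 2 ^ ((1 - ε) * ν) := by
      refine hK.trans (le_of_eq ?_)
      rw [hn2, ← Real.rpow_mul (by norm_num), mul_comm]
    have e1 : ((Nat.clog 2 L : ℝ) + 1) * K ≤ (ν ^ 2 + 2) * 2 ^ ((1 - ε) * ν) :=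
      mul_le_mul hclog e0 (Nat.cast_nonneg _) (by positivity)
    have e3 : (2 : ℝ) ^ ((1 - 3 * ε / 4) * ν) = 2 ^ (ε / 4 * ν) * 2 ^ ((1 - ε) * ν) := by
      rw [← Real.rpow_add (by norm_num)]
      congr 1
      ring
    rw [e3]
    exact e1.trans (mul_le_mul_of_nonneg_right g1 (by positivity))
  have hm2 : (2 : ℝ) ^ ((1 - ε / 2) * ν) ≤ ((2 ^ (a * d) : ℕ) : ℝ) := by
    have e1 : ((2 ^ (a * d) : ℕ) : ℝ) = 2 ^ ((a * d : ℕ) : ℝ) := by
      rw [Real.rpow_natCast]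
      push_cast
      rfl
    rw [e1]
    exact Real.rpow_le_rpow_of_exponent_le (by norm_num) hs
  have hlaw' : ((2 : ℝ) ^ ((1 - ε / 2) * ν)) ^ κ ≤ 2 * L * (2 ^ ((1 - 3 * ε / 4) * ν)) ^ κ := by
    have e1 : ((((2 ^ (a * d)) ^ κ : ℕ)) : ℝ) ≤
        ((2 * L * ((Nat.clog 2 L + 1) * K) ^ κ : ℕ) : ℝ) := by
      exact_mod_cast hl
    rw [Nat.cast_pow (2 ^ (a * d)) κ, Nat.cast_mul (2 * L),
      Nat.cast_pow ((Nat.clog 2 L + 1) * K) κ, Nat.cast_mul 2 L, Nat.cast_ofNat] at e1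
    refine (pow_le_pow_left₀ (by positivity) hm2 κ).trans (e1.trans ?_)
    refine mul_le_mul_of_nonneg_left ?_ (by positivity)
    exact pow_le_pow_left₀ (Nat.cast_nonneg _) hx κ
  have hfin : ε / 4 * ν * κ ≤ 1 + ε ^ 2 / 512 * D * ν := by
    have e1 : ((2 : ℝ) ^ ((1 - ε / 2) * ν)) ^ κ =
        2 ^ (ε / 4 * ν * κ) * (2 ^ ((1 - 3 * ε / 4) * ν)) ^ κ := by
      rw [← Real.rpow_natCast, ← Real.rpow_natCast, ← Real.rpow_mul (by norm_num),
        ← Real.rpow_mul (by norm_num), ← Real.rpow_add (by norm_num)]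
      congr 1
      ring
    rw [e1] at hlaw'
    have e2 : (2 : ℝ) ^ (ε / 4 * ν * κ) ≤ 2 * L := le_of_mul_le_mul_right hlaw' (by positivity)
    have e3 : Real.logb 2 ((2 : ℝ) ^ (ε / 4 * ν * κ)) ≤ Real.logb 2 (2 * L) :=
      Real.logb_le_logb_of_le (by norm_num) (by positivity) e2
    rw [Real.logb_rpow (by norm_num) (by norm_num), Real.logb_mul (by norm_num) hL0.ne',
      Real.logb_self_eq_one (by norm_num)] at e3
    linarith
  have hκ2 : ε / 64 * D ≤ κ := by linarith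
  have e1 : ε / 4 * ν * (ε / 64 * D) ≤ ε / 4 * ν * κ :=
    mul_le_mul_of_nonneg_left hκ2 (by positivity)
  have e2 : 1000 ≤ ε ^ 2 * ν := by
    rw [div_le_iff₀ (by positivity)] at g3
    linarith
  have e3 : 1000 * 1 ≤ ε ^ 2 * ν * D := mul_le_mul e2 hD0 (by norm_num) (by positivity)
  nlinarith

/-- The choice of the parameters: words of length `d` over `2 ^ a` letters, `2 ^ t` layers. -/
theorem params {ε : ℝ} (hε : 0 < ε) (hε1 : ε ≤ 1) : ∃ d D₀ : ℕ, 1 ≤ d ∧ ∀ᶠ n : ℕ in atTop,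
    ∀ D : ℕ, D₀ ≤ D → (D : ℝ) ≤ Real.logb 2 n → ∃ t a : ℕ, d ≤ 2 ^ t ∧ 2 ^ t * 2 ^ (a * (d + 1)) ≤ n ∧
      ((1 + (t + 2) * (a * d + 1) : ℕ) : ℝ) ≤ D * Real.logb 2 n ∧
      ∀ K L : ℕ, 1 ≤ L → (K : ℝ) ≤ (n : ℝ) ^ (1 - ε) →
        (∀ q, 1 ≤ q → d * q ≤ 2 ^ t →
          (2 ^ (a * d)) ^ kap q ≤ 2 * L * ((Nat.clog 2 L + 1) * K) ^ kap q) →
        (n : ℝ) ^ (ε ^ 2 / 512 * D) ≤ L := by
  obtain ⟨d, hd⟩ : ∃ d, d = ⌈4 / ε⌉₊ := ⟨_, rfl⟩
  have hd1 : 4 / ε ≤ d := by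
    rw [hd]
    exact Nat.le_ceil _
  have hd4 : 4 ≤ d := by
    have h1 : (4 : ℝ) ≤ d := by
      refine le_trans ?_ hd1
      rw [le_div_iff₀ hε]
      linarith
    exact_mod_cast h1
  obtain ⟨ν₁, hν₁⟩ := Pool.Agent.TH679.CF.exists_large ε hε
  refine ⟨d, 2 * d + 9, by omega, ?_⟩
  obtain ⟨ν₀, hν₀⟩ : ∃ ν₀ : ℝ, ν₀ = max ν₁ (max (1000 / ε ^ 2) (16 * (2 * d + 9) / ε)) :=
    ⟨_, rfl⟩
  have hlarge : ∀ᶠ n : ℕ in atTop, (2 : ℝ) ^ ν₀ ≤ (n : ℝ) :=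
    tendsto_natCast_atTop_atTop.eventually_ge_atTop _
  filter_upwards [hlarge, eventually_ge_atTop 1] with n hn hn1 D hD hDn
  have hn0 : (0 : ℝ) < n := by exact_mod_cast hn1
  obtain ⟨ν, hν⟩ : ∃ ν, ν = Real.logb 2 n := ⟨_, rfl⟩
  rw [← hν] at hDn ⊢
  have hνν : ν₀ ≤ ν := by
    rw [hν, Real.le_logb_iff_rpow_le (by norm_num) hn0]
    exact hn
  have b1 : ν₁ ≤ ν := le_trans (by rw [hν₀]; exact le_max_left _ _) hνν
  have b2 : 1000 / ε ^ 2 ≤ ν := le_trans (by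
    rw [hν₀]; exact le_trans (le_max_left _ _) (le_max_right _ _)) hνν
  have b3 : 16 * (2 * d + 9) / ε ≤ ν := le_trans (by
    rw [hν₀]; exact le_trans (le_max_right _ _) (le_max_right _ _)) hνν
  have b4 : 16 * (2 * (d : ℝ) + 9) ≤ ε * ν := by
    rw [div_le_iff₀ hε] at b3
    linarith
  have hd0 : (4 : ℝ) ≤ d := by exact_mod_cast hd4
  have hν0 : 0 < ν := by
    have h1 : 0 < 1000 / ε ^ 2 := by positivity
    linarith
  have hn2 : (n : ℝ) = 2 ^ ν := by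
    rw [hν]
    exact (Real.rpow_logb (by norm_num) (by norm_num) hn0).symm
  have hεν : ε * ν ≤ ν := by nlinarith
  obtain ⟨B, hB⟩ : ∃ B, B = ⌊ν⌋₊ := ⟨_, rfl⟩
  have hB1 : (B : ℝ) ≤ ν := by
    rw [hB]
    exact Nat.floor_le hν0.le
  have hB2 : ν < B + 1 := by
    rw [hB]
    exact Nat.lt_floor_add_one _
  obtain ⟨f, hf⟩ : ∃ f, f = ⌊ε / 8 * ν⌋₊ := ⟨_, rfl⟩
  have hf1 : (f : ℝ) ≤ ε / 8 * ν := by
    rw [hf]
    exact Nat.floor_le (by positivity)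
  have hf2 : ε / 8 * ν < f + 1 := by
    rw [hf]
    exact Nat.lt_floor_add_one _
  obtain ⟨t, ht⟩ : ∃ t, t = min (D - 3) f := ⟨_, rfl⟩
  have ht1 : t + 3 ≤ D := by omega
  have ht2 : t ≤ f := by omega
  have hf3 : 2 * d + 6 ≤ f := by
    have h1 : (2 * (d : ℝ) + 6) ≤ f := by linarith
    exact_mod_cast h1
  have ht3 : 2 * d + 6 ≤ t := by omega
  have ht4 : (t : ℝ) ≤ ε / 8 * ν := le_trans (by exact_mod_cast ht2) hf1
  have ht5 : ε / 16 * D ≤ t := by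
    rcases le_total (D - 3) f with h | h
    · have h1 : t = D - 3 := by omega
      have h2 : D ≤ 2 * t := by omega
      have h3 : (D : ℝ) ≤ 2 * t := by exact_mod_cast h2
      have h4 : (0 : ℝ) ≤ D := Nat.cast_nonneg _
      nlinarith
    · have h1 : t = f := by omega
      rw [h1]
      nlinarith
  obtain ⟨a, ha⟩ : ∃ a, a = (B - t) / (d + 1) := ⟨_, rfl⟩
  have htB : t + (d + 1) ≤ B := by
    have h1 : (t : ℝ) + (d + 1) ≤ B := by linarith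
    exact_mod_cast h1
  have ha1 : a * (d + 1) ≤ B - t := by
    rw [ha]
    exact Nat.div_mul_le_self _ _
  have ha2 : 1 ≤ a := by
    rw [ha]
    exact (Nat.one_le_div_iff (by omega)).2 (by omega)
  have ha3 : B - t < (a + 1) * (d + 1) := by
    rw [ha]
    exact (Nat.div_lt_iff_lt_mul (by omega)).1 (Nat.lt_succ_self _)
  refine ⟨t, a, (show d ≤ t by omega).trans (Nat.lt_two_pow_self).le, ?_, ?_, ?_⟩
  · rw [← pow_add]
    have h1 : ((2 ^ (t + a * (d + 1)) : ℕ) : ℝ) ≤ (n : ℝ) := by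
      rw [hn2]
      push_cast
      rw [← Real.rpow_natCast]
      refine Real.rpow_le_rpow_of_exponent_le (by norm_num) (le_trans ?_ hB1)
      exact_mod_cast (by omega : t + a * (d + 1) ≤ B)
    exact_mod_cast h1
  · have h1 : a * d + 1 ≤ B := by
      have : a * (d + 1) = a * d + a := by ring
      omega
    have h2 : 1 + (t + 2) * (a * d + 1) ≤ D * B := by
      have h3 : (t + 2) * (a * d + 1) ≤ (D - 1) * B := Nat.mul_le_mul (by omega) h1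
      have h4 : (D - 1) * B + B = D * B := by
        obtain ⟨D', rfl⟩ : ∃ D', D = D' + 1 := ⟨D - 1, by omega⟩
        rw [Nat.add_sub_cancel]
        ring
      omega
    calc ((1 + (t + 2) * (a * d + 1) : ℕ) : ℝ) ≤ ((D * B : ℕ) : ℝ) := by exact_mod_cast h2
      _ = D * B := by push_cast; ring
      _ ≤ D * ν := mul_le_mul_of_nonneg_left hB1 (Nat.cast_nonneg _)
  · intro K L hL hK hlaw
    have hdt : d ≤ t := by omega
    have hq := hlaw (2 ^ (t - d)) Nat.one_le_two_pow (by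
      have h1 : 2 ^ t = 2 ^ d * 2 ^ (t - d) := by
        rw [← pow_add]
        congr 1
        omega
      rw [h1]
      exact Nat.mul_le_mul_right _ (Nat.lt_two_pow_self).le)
    refine fits hε hε1 hν hn1 hL (by omega) hDn (hν₁ ν b1).1 b2 ?_ ht5 ?_ hK hq
    · have h1 : a * (d + 1) ≤ B := by omega
      have h2 : (a : ℝ) * (d + 1) ≤ B := by exact_mod_cast h1
      have h3 : B < t + (a * (d + 1) + (d + 1)) := by
        have : (a + 1) * (d + 1) = a * (d + 1) + (d + 1) := by ring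
        omega
      have h4 : (B : ℝ) < t + (a * (d + 1) + (d + 1)) := by exact_mod_cast h3
      have h5 : (a : ℝ) ≤ ε / 4 * ν := by
        have h6 : 4 ≤ (d + 1) * ε := by
          rw [div_le_iff₀ hε] at hd1
          nlinarith
        have h7 : (a : ℝ) * 4 ≤ a * ((d + 1) * ε) :=
          mul_le_mul_of_nonneg_left h6 (Nat.cast_nonneg _)
        have h8 : (a : ℝ) * (d + 1) * ε ≤ ν * ε := mul_le_mul_of_nonneg_right (by linarith) hε.le
        nlinarith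
      push_cast
      nlinarith
    · have h1 : ((t - d : ℕ) : ℝ) / 2 - 1 ≤ (kap (2 ^ (t - d)) : ℝ) := by
        refine kap_ge ?_
        rw [Real.rpow_natCast]
        push_cast
        exact le_rfl
      rw [Nat.cast_sub hdt] at h1
      have h2 : (2 * (d : ℝ) + 6) ≤ t := by exact_mod_cast ht3
      linarith

end Pool.Agent.TH679.NC
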