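import Pool.Agent.TH679.NC.Rounds
import Pool.Agent.TH679.DB.Upper

/-!
A parallel program with few rounds for the paths through a layered graph
-/

set_option autoImplicit false
set_option linter.unusedSectionVars false

namespace Pool.Agent.TH679.NC

open Finset
open Pool.Agent.H564R3.PW (Instr runs exec L2_P L2_P_add L2_P_one)
open Pool.Agent.TH679.DB (Edge Path pathSum ext ext_ne pathSum_eq)

/-- a number modulo `2 ^ s` -/
def fi (s x : ℕ) : Fin (2 ^ s) := ⟨x % 2 ^ s, Nat.mod_lt _ (Nat.two_pow_pos s)⟩

theorem fi_val {s x : ℕ} (h : x < 2 ^ s) : (fi s x).val = x := Nat.mod_eq_of_lt h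

section Enum

variable {R : Type} [CommSemiring R] {W : Type} [Fintype W]

/-- an enumeration of `W` -/
noncomputable def en (W : Type) [Fintype W] (y : ℕ) : Option W :=
  if h : y < Fintype.card W then some ((Fintype.equivFin W).symm ⟨y, h⟩) else none

theorem sum_en {s : ℕ} (hW : Fintype.card W ≤ 2 ^ s) (f : Option W → R) (hf : f none = 0) :
    ∑ y ∈ range (2 ^ s), f (en W y) = ∑ a : W, f (some a) := by
  have h1 : range (Fintype.card W) ⊆ range (2 ^ s) := range_subset_range.2 hW
  rw [← sum_subset h1, sum_range, ← (Fintype.equivFin W).symm.sum_comp]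
  · refine sum_congr rfl fun i _ => ?_
    unfold en
    rw [dif_pos i.2]
  · intro y _ hy
    rw [mem_range] at hy
    unfold en
    rw [dif_neg hy, hf]

end Enum

section Prog

variable (R : Type) [CommSemiring R] {W : Type} [Fintype W] [DecidableEq W] (t s : ℕ)
  (ok : W → W → Prop) [DecidableRel ok]

/-- the registers -/
abbrev Rg (W : Type) (t s : ℕ) : Type := Fin (2 ^ t) × W × W × Fin (2 ^ s)

/-- the gates of the first round of block `l` -/
def first (l c : ℕ) (u v : W) : Option W → Gate R (Edge (2 ^ t) ok) (Rg W t s)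
  | none => .const 0
  | some z => if l < t then .mul (fi t (2 * c), u, z, fi s 0) (fi t (2 * c + 1), z, v, fi s 0)
      else if l = t then .copy (fi t 0, u, z, fi s 0) else .copy (fi t 0, z, v, fi s 0)

/-- the gates: at first the weights are loaded; then there are `t + 2` blocks of `s + 1` rounds -/
noncomputable def gates (i : ℕ) (j : Rg W t s) : Gate R (Edge (2 ^ t) ok) (Rg W t s) :=
  if i = 0 then
    if h : ok j.2.1 j.2.2.1 then .load ⟨(j.1, j.2.1, j.2.2.1), h⟩ else .const 0
  else if (i - 1) % (s + 1) = 0 then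
    first R t s ok ((i - 1) / (s + 1)) j.1.val j.2.1 j.2.2.1 (en W j.2.2.2.val)
  else .add (j.1, j.2.1, j.2.2.1, fi s (2 * j.2.2.2.val))
    (j.1, j.2.1, j.2.2.1, fi s (2 * j.2.2.2.val + 1))

theorem first_some (l c : ℕ) (u v z : W) : first R t s ok l c u v (some z) =
    if l < t then .mul (fi t (2 * c), u, z, fi s 0) (fi t (2 * c + 1), z, v, fi s 0)
      else if l = t then .copy (fi t 0, u, z, fi s 0) else .copy (fi t 0, z, v, fi s 0) := rfl

variable {R t s ok}

theorem halve (w : Edge (2 ^ t) ok → R) {r : ℕ} (c : Fin (2 ^ t)) (u v : W) : ∀ j ≤ s,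
    (∀ i < j, ¬ (r + i = 0) ∧ (r + i - 1) % (s + 1) ≠ 0) → ∀ x < 2 ^ (s - j),
    par w (gates R t s ok) (r + j) (c, u, v, fi s x) =
      ∑ y ∈ range (2 ^ j), par w (gates R t s ok) r (c, u, v, fi s (x * 2 ^ j + y)) := by
  intro j
  induction j with
  | zero =>
    intro _ _ x _
    simp
  | succ j ih =>
    intro hj hr x hx
    obtain ⟨h1, h2⟩ := hr j (Nat.lt_succ_self j)
    have hs : 2 ^ (s - j) = 2 * 2 ^ (s - (j + 1)) := by
      rw [← pow_succ']
      congr 1
      omega
    have hxs : x < 2 ^ s := lt_of_lt_of_le hx (Nat.pow_le_pow_right (by norm_num) (by omega))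
    have hg : gates R t s ok (r + j) (c, u, v, fi s x) =
        .add (c, u, v, fi s (2 * x)) (c, u, v, fi s (2 * x + 1)) := by
      unfold gates
      rw [if_neg h1, if_neg h2]
      dsimp only
      rw [fi_val hxs]
    have e : par w (gates R t s ok) (r + (j + 1)) (c, u, v, fi s x) =
        par w (gates R t s ok) (r + j) (c, u, v, fi s (2 * x)) +
          par w (gates R t s ok) (r + j) (c, u, v, fi s (2 * x + 1)) := by
      show (gates R t s ok (r + j) (c, u, v, fi s x)).val w _ = _
      rw [hg]
      rfl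
    rw [e, ih (by omega) (fun i hi => hr i (by omega)) _ (by omega),
      ih (by omega) (fun i hi => hr i (by omega)) _ (by omega), pow_succ, mul_two,
      sum_range_add]
    congr 1
    · refine sum_congr rfl fun y _ => ?_
      congr 5
      ring
    · refine sum_congr rfl fun y _ => ?_
      congr 5
      ring

/-- the values at the beginning of block `l` -/
noncomputable def st (w : Edge (2 ^ t) ok → R) (l : ℕ) (c : Fin (2 ^ t)) (u v : W) : R :=
  par w (gates R t s ok) (1 + l * (s + 1)) (c, u, v, fi s 0)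

theorem block (hW : Fintype.card W ≤ 2 ^ s) (w : Edge (2 ^ t) ok → R) (l : ℕ) (c : Fin (2 ^ t))
    (u v : W) : st (s := s) w (l + 1) c u v = ∑ z : W, (first R t s ok l c.val u v (some z)).val w
      (par w (gates R t s ok) (1 + l * (s + 1))) := by
  have h1 := halve (s := s) w (r := 1 + l * (s + 1) + 1) c u v s le_rfl (by
    intro i hi
    refine ⟨by omega, ?_⟩
    have e : 1 + l * (s + 1) + 1 + i - 1 = (1 + i) + l * (s + 1) := by omega
    rw [e, Nat.add_mul_mod_self_right, Nat.mod_eq_of_lt (by omega)]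
    omega) 0 (by simp)
  have e1 : 1 + l * (s + 1) + 1 + s = 1 + (l + 1) * (s + 1) := by ring
  rw [e1] at h1
  unfold st
  rw [h1]
  have e2 : ∀ y ∈ range (2 ^ s),
      par w (gates R t s ok) (1 + l * (s + 1) + 1) (c, u, v, fi s (0 * 2 ^ s + y)) =
      (first R t s ok l c.val u v (en W y)).val w (par w (gates R t s ok) (1 + l * (s + 1))) := by
    intro y hy
    rw [mem_range] at hy
    show (gates R t s ok (1 + l * (s + 1)) (c, u, v, fi s (0 * 2 ^ s + y))).val w _ = _
    rw [zero_mul, zero_add]
    unfold gates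
    have e3 : (1 + l * (s + 1) - 1) % (s + 1) = 0 := by
      rw [Nat.add_sub_cancel_left, Nat.mul_mod_left]
    have e4 : (1 + l * (s + 1) - 1) / (s + 1) = l := by
      rw [Nat.add_sub_cancel_left, Nat.mul_div_cancel _ (Nat.succ_pos s)]
    rw [if_neg (by omega), if_pos e3, e4]
    dsimp only
    rw [fi_val hy]
  rw [sum_congr rfl e2]
  exact sum_en hW (fun z => (first R t s ok l c.val u v z).val w
    (par w (gates R t s ok) (1 + l * (s + 1)))) rfl

theorem st_zero (w : Edge (2 ^ t) ok → R) (c : Fin (2 ^ t)) (u v : W) :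
    st (s := s) w 0 c u v = ext w c.val u v := by
  unfold st
  rw [zero_mul, add_zero]
  show (gates R t s ok 0 (c, u, v, fi s 0)).val w _ = _
  unfold gates
  rw [if_pos rfl]
  dsimp only
  by_cases h : ok u v
  · rw [dif_pos h]
    unfold Pool.Agent.TH679.DB.ext
    rw [dif_pos ⟨c.2, h⟩]
    rfl
  · rw [dif_neg h, ext_ne w h]
    rfl

theorem st_mat (hW : Fintype.card W ≤ 2 ^ s) (w : Edge (2 ^ t) ok → R) : ∀ l ≤ t,
    ∀ (c : Fin (2 ^ t)) (u v : W), c.val < 2 ^ (t - l) →
      st (s := s) w l c u v = L2_P (ext w) (2 ^ l) (c.val * 2 ^ l) u v := by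
  intro l
  induction l with
  | zero =>
    intro _ c u v _
    rw [st_zero, pow_zero, L2_P_one, mul_one]
  | succ l ih =>
    intro hl c u v hc
    have h2 : 2 ^ (t - l) = 2 * 2 ^ (t - (l + 1)) := by
      rw [← pow_succ']
      congr 1
      omega
    have h3 : 2 ^ (t - l) ≤ 2 ^ t := Nat.pow_le_pow_right (by norm_num) (by omega)
    have h4 : (fi t (2 * c.val)).val = 2 * c.val := fi_val (by omega)
    have h5 : (fi t (2 * c.val + 1)).val = 2 * c.val + 1 := fi_val (by omega)
    rw [block hW, pow_succ, mul_two, L2_P_add]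
    refine sum_congr rfl fun z _ => ?_
    have e1 : (first R t s ok l c.val u v (some z)).val w
        (par w (gates R t s ok) (1 + l * (s + 1))) =
        st (s := s) w l (fi t (2 * c.val)) u z * st (s := s) w l (fi t (2 * c.val + 1)) z v := by
      rw [first_some, if_pos (by omega)]
      rfl
    rw [e1, ih (by omega) _ _ _ (by omega), ih (by omega) _ _ _ (by omega), h4, h5]
    congr 2
    · ring
    · ring

/-- The sum over the paths is in the first register after `(t + 2) (s + 1) + 1` rounds. -/
theorem par_path (hW : Fintype.card W ≤ 2 ^ s) (w : Edge (2 ^ t) ok → R) (u v : W) :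
    par w (gates R t s ok) (1 + (t + 2) * (s + 1)) (fi t 0, u, v, fi s 0) = pathSum w := by
  have h0 : (fi t 0).val = 0 := fi_val (Nat.two_pow_pos t)
  have h1 : ∀ u : W, st (s := s) w (t + 1) (fi t 0) u v = ∑ z : W, L2_P (ext w) (2 ^ t) 0 u z := by
    intro u
    rw [block hW]
    refine sum_congr rfl fun z _ => ?_
    have e1 : (first R t s ok t (fi t 0).val u v (some z)).val w
        (par w (gates R t s ok) (1 + t * (s + 1))) = st (s := s) w t (fi t 0) u z := by
      rw [first_some, if_neg (lt_irrefl _), if_pos rfl]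
      rfl
    rw [e1, st_mat hW w t le_rfl _ _ _ (by rw [h0, Nat.sub_self]; norm_num), h0, zero_mul]
  have h2 : st (s := s) w (t + 2) (fi t 0) u v = ∑ z : W, st (s := s) w (t + 1) (fi t 0) z v := by
    rw [block hW]
    refine sum_congr rfl fun z _ => ?_
    rw [first_some, if_neg (by omega), if_neg (by omega)]
    rfl
  show st (s := s) w (t + 2) (fi t 0) u v = _
  rw [h2, pathSum_eq]
  exact sum_congr rfl fun u _ => h1 u

end Prog

end Pool.Agent.TH679.NC
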