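import Pool.Agent.H564R3.PW.Chain

/-!
Parallel programs, and how to run them with few registers
-/

set_option autoImplicit false

namespace Pool.Agent.TH679.NC

open Finset
open Pool.Agent.H564R3.PW (Instr runs exec)

/-- What a register does in a round of a parallel program: it gets an input variable, a constant,
the old value of a register, or the sum or the product of the old values of two registers. -/
inductive Gate (R X ρ : Type) : Type
  | load (x : X)
  | const (c : R)
  | copy (i : ρ)
  | add (i j : ρ)
  | mul (i j : ρ)

section Defs

variable {R X ρ : Type} [CommSemiring R]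

/-- the new value -/
def Gate.val (w : X → R) (v : ρ → R) : Gate R X ρ → R
  | .load x => w x
  | .const c => c
  | .copy i => v i
  | .add i j => v i + v j
  | .mul i j => v i * v j

/-- The contents of the registers after `r` rounds. In round `i` the register `j` applies the
gate `G i j`, all registers at the same time; at the beginning all registers contain `0`. -/
def par (w : X → R) (G : ℕ → ρ → Gate R X ρ) : ℕ → ρ → R
  | 0 => fun _ => 0
  | i + 1 => fun j => (G i j).val w (par w G i)

end Defs

section Sim

variable {R X ρ : Type} [CommSemiring R] (G : ℕ → ρ → Gate R X ρ) (N : ℕ)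

/-- the sequential program which writes the content of the register `o` after `r` rounds into
register number `k` -/
def code : ℕ → ρ → ℕ → List (Instr R X (Fin (N + 1)))
  | 0, _, k => [.const (Fin.ofNat (N + 1) k) 0]
  | i + 1, o, k =>
    match G i o with
    | .load x => [.load (Fin.ofNat (N + 1) k) x]
    | .const c => [.const (Fin.ofNat (N + 1) k) c]
    | .copy s => code i s k
    | .add s t => code i s k ++ (code i t (k + 1) ++
        [.add (Fin.ofNat (N + 1) k) (Fin.ofNat (N + 1) k) (Fin.ofNat (N + 1) (k + 1))])
    | .mul s t => code i s k ++ (code i t (k + 1) ++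
        [.mul (Fin.ofNat (N + 1) k) (Fin.ofNat (N + 1) k) (Fin.ofNat (N + 1) (k + 1))])

theorem code_length : ∀ (r : ℕ) (o : ρ) (k : ℕ), (code G N r o k).length + 1 ≤ 2 ^ (r + 1) := by
  intro r
  induction r with
  | zero => intro o k; simp [code]
  | succ r ih =>
    intro o k
    have h1 : 1 ≤ 2 ^ (r + 1) := Nat.one_le_two_pow
    have h2 : 2 ^ (r + 1 + 1) = 2 * 2 ^ (r + 1) := by ring
    rw [code]
    rcases G r o with x | c | s | ⟨s, t⟩ | ⟨s, t⟩
    · simp only [List.length_singleton]; omega
    · simp only [List.length_singleton]; omega
    · have := ih s k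
      dsimp only
      omega
    · have e1 := ih s k
      have e2 := ih t (k + 1)
      simp only [List.length_append, List.length_singleton]
      omega
    · have e1 := ih s k
      have e2 := ih t (k + 1)
      simp only [List.length_append, List.length_singleton]
      omega

theorem runs_app (w : X → R) {σ : Type} [DecidableEq σ] (p q : List (Instr R X σ)) (v : σ → R) :
    runs w (p ++ q) v = runs w q (runs w p v) := by
  unfold runs
  rw [List.foldl_append]

theorem ofNat_ne {j k : ℕ} (hj : j < N + 1) (hk : k < N + 1) (h : j ≠ k) :
    Fin.ofNat (N + 1) j ≠ Fin.ofNat (N + 1) k := by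
  intro h'
  apply h
  have h1 := congrArg Fin.val h'
  rw [Fin.val_ofNat, Fin.val_ofNat, Nat.mod_eq_of_lt hj, Nat.mod_eq_of_lt hk] at h1
  exact h1

theorem code_run (w : X → R) : ∀ (r : ℕ) (o : ρ) (k : ℕ) (v : Fin (N + 1) → R), k + r ≤ N →
    runs w (code G N r o k) v (Fin.ofNat (N + 1) k) = par w G r o ∧
    ∀ j < k, runs w (code G N r o k) v (Fin.ofNat (N + 1) j) = v (Fin.ofNat (N + 1) j) := by
  intro r
  induction r with
  | zero =>
    intro o k v hk
    refine ⟨Function.update_self .., fun j hj => ?_⟩
    exact Function.update_of_ne (ofNat_ne N (by omega) (by omega) (by omega)) _ _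
  | succ r ih =>
    intro o k v hk
    have hone : ∀ I : Instr R X (Fin (N + 1)), ∀ v', runs w [I] v' = I.run w v' :=
      fun _ _ => rfl
    rw [code]
    have hpar : par w G (r + 1) o = (G r o).val w (par w G r) := rfl
    rw [hpar]
    rcases hG : G r o with x | c | s | ⟨s, t⟩ | ⟨s, t⟩
    · refine ⟨Function.update_self .., fun j hj => ?_⟩
      exact Function.update_of_ne (ofNat_ne N (by omega) (by omega) (by omega)) _ _
    · refine ⟨Function.update_self .., fun j hj => ?_⟩
      exact Function.update_of_ne (ofNat_ne N (by omega) (by omega) (by omega)) _ _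
    · exact ih s k v (by omega)
    · obtain ⟨a1, a2⟩ := ih s k v (by omega)
      obtain ⟨b1, b2⟩ := ih t (k + 1) (runs w (code G N r s k) v) (by omega)
      dsimp only
      rw [runs_app, runs_app, hone]
      constructor
      · show Function.update _ _ _ _ = _
        rw [Function.update_self, b1, b2 k (by omega), a1]
        rfl
      · intro j hj
        show Function.update _ _ _ _ = _
        rw [Function.update_of_ne (ofNat_ne N (by omega) (by omega) (by omega)),
          b2 j (by omega), a2 j hj]
    · obtain ⟨a1, a2⟩ := ih s k v (by omega)
      obtain ⟨b1, b2⟩ := ih t (k + 1) (runs w (code G N r s k) v) (by omega)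
      dsimp only
      rw [runs_app, runs_app, hone]
      constructor
      · show Function.update _ _ _ _ = _
        rw [Function.update_self, b1, b2 k (by omega), a1]
        rfl
      · intro j hj
        show Function.update _ _ _ _ = _
        rw [Function.update_of_ne (ofNat_ne N (by omega) (by omega) (by omega)),
          b2 j (by omega), a2 j hj]

/-- A parallel program with `r` rounds (and any number of registers) can be replaced by a sequential
program with `r + 1` registers and less than `2 ^ (r + 1)` steps. -/
theorem sim (r : ℕ) (o : ρ) : ∃ p : List (Instr R X (Fin (r + 1))), p.length < 2 ^ (r + 1) ∧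
    ∀ w : X → R, exec w p 0 = par w G r o := by
  refine ⟨code G r r o 0, code_length G r r o 0, fun w => ?_⟩
  exact (code_run G r w r o 0 (fun _ => 0) (by omega)).1

end Sim

end Pool.Agent.TH679.NC
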